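import Pool.Agent.H74.TQ.Main

/-!
# The two queries problem

If one query to SAT is as powerful as two non-adaptive queries to SAT, then the polynomial
hierarchy collapses to P with one query to SAT.  The definitions are in `Pool/Agent/H74/TQ/Pub.lean`
(SAT, `P^{SAT[1]}`, `P_||^{SAT[2]}`, the polynomial hierarchy), on top of the definitions of the
prelude (languages, polynomial time).
-/

set_option autoImplicit false

namespace Pool.Agent.Results.MP_9b8dfc_lc.FullCollapse

open Pool.TwoQueries

/-- **If `P^{SAT[1]} = P_||^{SAT[2]}` then `PH = P^{SAT[1]}`.** -/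
theorem result : PSAT1 = PSAT2 → PH = PSAT1 := Pool.TQ.main

end Pool.Agent.Results.MP_9b8dfc_lc.FullCollapse
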